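import Mathlib
import Pool.Agent.Lib.MP_471c81_an.Main

/-!
# Extension of Frechet differentiable norms from subspaces

Let `X` be a real Banach space whose dual is separable (for instance a separable reflexive space),
`Y` a closed subspace and `q` an equivalent norm on `Y` that is Frechet differentiable off the
origin. We show that there is an equivalent norm on `X` that is Frechet differentiable off the
origin and extends `q`.
-/

set_option autoImplicit false

open Filter Topology TopologicalSpace

namespace Pool.Agent.Results.MP_471c81_an.SmoothExtension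

/-- `p` is a norm on the real vector space `E`. -/
structure IsNorm {E : Type*} [AddCommGroup E] [Module ℝ E] (p : E → ℝ) : Prop where
  /-- the triangle inequality -/
  add_le : ∀ x y : E, p (x + y) ≤ p x + p y
  /-- homogeneity -/
  smul : ∀ (a : ℝ) (x : E), p (a • x) = |a| * p x
  /-- definiteness -/
  eq_zero : ∀ x : E, p x = 0 → x = 0

/-- `p` is equivalent to the given norm: `a ‖x‖ ≤ p x ≤ b ‖x‖` for some `0 < a ≤ b`. -/
def IsEquivalent {E : Type*} [NormedAddCommGroup E] (p : E → ℝ) : Prop :=
  ∃ a b : ℝ, 0 < a ∧ a ≤ b ∧ ∀ x : E, a * ‖x‖ ≤ p x ∧ p x ≤ b * ‖x‖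

/-- `p` is Frechet differentiable at every point `x ≠ 0`: for such `x` there is a continuous linear
functional `f` such that `(p (x + h) - p x - f h) / ‖h‖` tends to `0` as `h` tends to `0`,
`h ≠ 0`. -/
def IsFrechetDifferentiable {E : Type*} [NormedAddCommGroup E] [NormedSpace ℝ E] (p : E → ℝ) :
    Prop :=
  ∀ x : E, x ≠ 0 → ∃ f : E →L[ℝ] ℝ,
    Tendsto (fun h : E => (p (x + h) - p x - f h) / ‖h‖) (𝓝[≠] 0) (𝓝 0)

theorem isFrechetDifferentiable_iff {E : Type*} [NormedAddCommGroup E] [NormedSpace ℝ E]
    (p : E → ℝ) :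
    IsFrechetDifferentiable p ↔ ∀ x : E, x ≠ 0 → DifferentiableAt ℝ p x := by
  unfold IsFrechetDifferentiable DifferentiableAt
  refine forall_congr' fun x => imp_congr_right fun _ => exists_congr fun f => ?_
  rw [hasFDerivAt_iff_isLittleO_nhds_zero, ← Asymptotics.isLittleO_norm_right,
    Asymptotics.isLittleO_iff_tendsto
      (fun h hh => by rw [norm_eq_zero] at hh; subst hh; simp)]
  have h0 : (p (x + 0) - p x - f 0) / ‖(0 : E)‖ = 0 := by simp
  have h1 := continuousAt_iff_punctured_nhds (f := fun h : E => (p (x + h) - p x - f h) / ‖h‖)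
    (a := (0 : E))
  rw [ContinuousAt, h0] at h1
  exact h1.symm

/-- **Extension of Frechet differentiable norms.** Let `X` be a real normed space that has a
separable dual, or is separable and reflexive; let `Y` be a closed linear subspace of `X` and `q` an
equivalent norm on `Y` that is Frechet differentiable at every nonzero point of `Y`. Then there is
an equivalent norm `p` on `X` that is Frechet differentiable at every nonzero point of `X` and
agrees with `q` on `Y`. -/
theorem result (X : Type*) [NormedAddCommGroup X] [NormedSpace ℝ X]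
    (hX : SeparableSpace (X →L[ℝ] ℝ) ∨
      (SeparableSpace X ∧ Function.Surjective (NormedSpace.inclusionInDoubleDual ℝ X)))
    (Y : Submodule ℝ X) (hY : IsClosed (Y : Set X))
    (q : Y → ℝ) (hq : IsNorm q) (hqe : IsEquivalent q) (hqd : IsFrechetDifferentiable q) :
    ∃ p : X → ℝ, IsNorm p ∧ IsEquivalent p ∧ IsFrechetDifferentiable p ∧
      ∀ y : Y, p (y : X) = q y := by
  have h2 : SeparableSpace (X →L[ℝ] ℝ) := by
    rcases hX with h | ⟨hs, hrefl⟩
    · exact h
    · have h1 : SeparableSpace ((X →L[ℝ] ℝ) →L[ℝ] ℝ) :=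
        (hrefl.denseRange).separableSpace (NormedSpace.inclusionInDoubleDual ℝ X).continuous
      exact L471c81.separable_of_dual
  have h3 : SeparableSpace X := L471c81.separable_of_dual
  have hHB : L471c81.HB (Y.subtypeL) := by
    intro w
    obtain ⟨g, hg, hgn⟩ := exists_extension_norm_eq Y w
    exact ⟨g, hg, hgn⟩
  have hcl : IsClosed (Set.range (Y.subtypeL)) := by
    have : Set.range (Y.subtypeL) = (Y : Set X) := by simp
    rw [this]
    exact hY
  let N : Seminorm ℝ Y := Seminorm.of q hq.add_le (fun a x => by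
    rw [hq.smul, Real.norm_eq_abs])
  have hN : ∀ y, N y = q y := fun y => rfl
  obtain ⟨a, b, ha, hab, hq1⟩ := hqe
  obtain ⟨M, ⟨c, C, hc, hC, hM1⟩, hM2, hM3⟩ :=
    L471c81.extension Y.subtypeL (fun y => rfl) hcl hHB N
      ⟨a, b, ha, ha.trans_le hab, fun y => hq1 y⟩
      (fun y hy => (isFrechetDifferentiable_iff q).1 hqd y hy)
  refine ⟨M, ⟨map_add_le_add M, fun r x => ?_, fun x hx => ?_⟩, ⟨c, max c C, hc, le_max_left _ _,
    fun x => ⟨(hM1 x).1, (hM1 x).2.trans ?_⟩⟩, (isFrechetDifferentiable_iff _).2 hM2,
    fun y => hM3 y⟩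
  · rw [map_smul_eq_mul, Real.norm_eq_abs]
  · have h4 := (hM1 x).1
    rw [hx] at h4
    have h5 : ‖x‖ ≤ 0 := by
      by_contra h6
      push Not at h6
      have := mul_pos hc h6
      linarith
    exact norm_le_zero_iff.1 h5
  · exact mul_le_mul_of_nonneg_right (le_max_right _ _) (norm_nonneg x)

end Pool.Agent.Results.MP_471c81_an.SmoothExtension
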